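import Pool.Agent.Run7.h668.TK.Iface

/-! # Project TK of helper668: pieces SUG, SUB, PAIR, POS -/

set_option autoImplicit false

namespace Pool.Agent.Run7.h913.TK

open Pool.Agent.Run7.h668.TK
open Polynomial

/-- monotone up to the middle -/
theorem SU.mono {d : ℤ} {f : ℤ → ℚ} (hf : SU d f) (i j : ℤ) (hij : i ≤ j) (hj : 2 * j ≤ d + 1) :
    f i ≤ f j := by
  revert hj
  refine Int.le_induction (m := i) (motive := fun j _ => 2 * j ≤ d + 1 → f i ≤ f j) ?_ ?_ j hij
  · intro _
    exact le_rfl
  · intro n hn ih h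
    have h1 := ih (by omega)
    have h2 := hf.2 (n + 1) h
    rw [add_sub_cancel_right] at h2
    exact h1.trans h2

/-- **Piece SUG.** -/
theorem t_SUG : S_SUG := by
  intro d f hf k i hi
  by_cases h : 2 * i ≤ d + 1
  · exact SU.mono hf _ _ (by omega) h
  · rw [hf.1 i]
    exact SU.mono hf _ _ (by omega) (by omega)

/-- **Piece SUB.** -/
theorem t_SUB : S_SUG → S_SUB := by
  intro sug d f k hk hf
  constructor
  · intro i
    unfold bk
    rw [← Finset.sum_range_reflect]
    apply Finset.sum_congr rfl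
    intro l hl
    rw [Finset.mem_range] at hl
    rw [hf.1]
    congr 1
    omega
  · intro i hi
    have e : bk k f i - bk k f (i - 1) = f i - f (i - k) := by
      unfold bk
      rw [← Finset.sum_sub_distrib]
      have h := Finset.sum_range_sub' (fun l : ℕ => f (i - l)) k
      simp only [Nat.cast_zero, sub_zero] at h
      rw [← h]
      apply Finset.sum_congr rfl
      intro l _
      congr 2
      push_cast
      ring
    have h2 := sug d f hf k i (by omega)
    linarith

theorem bk_add (a t : ℕ) (U : ℤ → ℚ) (x : ℤ) : bk (a + t) U x = bk a U x + bk t U (x - a) := by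
  unfold bk
  rw [Finset.sum_range_add]
  congr 1
  apply Finset.sum_congr rfl
  intro l _
  congr 1
  push_cast
  ring

theorem pair_aux (sug : S_SUG) (d : ℤ) (U : ℤ → ℚ) (hU : SU d U) (q : ℤ) (o a1 h : ℕ)
    (hh : h = o + a1) (hq : 2 * q ≤ d + h - 1) :
    ∀ (L : List ℕ), (∀ a ∈ L, a ≤ a1) → ∀ σ : ℕ, σ + L.sum ≤ o →
      (L.map fun a => bk a U (q - ((h : ℤ) - a))).sum ≤ bk L.sum U (q - σ) := by
  intro L
  induction L with
  | nil =>
    intro _ σ _
    simp [bk]
  | cons a t ih =>
    intro hL σ hσ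
    rw [List.sum_cons] at hσ
    have ha : a ≤ a1 := hL a (by simp)
    have iht := ih (fun b hb => hL b (by simp [hb])) (σ + a) (by omega)
    rw [List.map_cons, List.sum_cons, List.sum_cons, bk_add]
    have e : q - (σ : ℤ) - a = q - ((σ + a : ℕ) : ℤ) := by
      push_cast
      ring
    rw [e]
    apply add_le_add _ iht
    unfold bk
    rw [← Finset.sum_range_reflect]
    apply Finset.sum_le_sum
    intro k hk
    rw [Finset.mem_range] at hk
    have h1 := sug d U hU (h - 1 - σ - 2 * k) (q - σ - k) (by omega)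
    have e2 : q - (σ : ℤ) - k - ((h - 1 - σ - 2 * k : ℕ) : ℤ) =
        q - ((h : ℤ) - a) - ((a - 1 - k : ℕ) : ℤ) := by
      omega
    rw [e2] at h1
    exact h1

/-- **Piece PAIR.** -/
theorem t_PAIR : S_SUG → S_PAIR := by
  intro sug R hR hpos d U hU q hq
  obtain ⟨a1, ha1, hmax⟩ : ∃ a1 ∈ R, ∀ a ∈ R, a ≤ a1 := by
    obtain ⟨b, hb, hb'⟩ := Finset.exists_max_image R.toFinset id
      (by obtain ⟨x, l, rfl⟩ := List.exists_cons_of_ne_nil hR
          exact ⟨x, by simp⟩)
    exact ⟨b, by simpa using hb, fun a ha => hb' a (by simpa using ha)⟩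
  have hp : R.Perm (a1 :: R.erase a1) := List.perm_cons_erase ha1
  have hs : R.sum = a1 + (R.erase a1).sum := by
    rw [hp.sum_eq, List.sum_cons]
  have hm : (R.map fun a => bk a U (q - ((R.sum : ℤ) - a))).sum =
      bk a1 U (q - ((R.sum : ℤ) - a1)) +
        ((R.erase a1).map fun a => bk a U (q - ((R.sum : ℤ) - a))).sum := by
    rw [(hp.map _).sum_eq, List.map_cons, List.sum_cons]
  rw [hm]
  have h1 := pair_aux sug d U hU q (R.erase a1).sum a1 R.sum (by omega) hq (R.erase a1)
    (fun a ha => hmax a (List.mem_of_mem_erase ha)) 0 (by omega)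
  have h2 : bk R.sum U q = bk (R.erase a1).sum U q + bk a1 U (q - ((R.sum : ℤ) - a1)) := by
    conv_lhs => rw [hs, add_comm, bk_add]
    congr 2
    rw [hs]
    push_cast
    ring
  rw [h2, add_comm]
  simp only [Nat.cast_zero, sub_zero] at h1
  linarith

theorem SU_foldl (sub : S_SUB) : ∀ (cs : List ℕ), (∀ c ∈ cs, 1 ≤ c) → ∀ (d : ℤ) (f : ℤ → ℚ),
    SU d f → SU (d + cs.sum - cs.length) (cs.foldl (fun g c => bk c g) f) := by
  intro cs
  induction cs with
  | nil =>
    intro _ d f hf
    simpa using hf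
  | cons c cs ih =>
    intro hcs d f hf
    have h1 := ih (fun b hb => hcs b (by simp [hb])) (d + c - 1) (bk c f)
      (sub d f c (hcs c (by simp)) hf)
    rw [List.foldl_cons]
    have e : d + ((c :: cs).sum : ℕ) - ((c :: cs).length : ℕ) = d + c - 1 + cs.sum - cs.length := by
      rw [List.sum_cons, List.length_cons]
      push_cast
      ring
    rw [e]
    exact h1

theorem conv_foldl (cvb : S_CVB) (Y : ℚ[X]) (q : ℤ) : ∀ (cs : List ℕ) (f : ℤ → ℚ),
    conv f ((cs.map qn).prod * Y) q = conv (cs.foldl (fun g c => bk c g) f) Y q := by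
  intro cs
  induction cs with
  | nil =>
    intro f
    simp
  | cons c cs ih =>
    intro f
    rw [List.map_cons, List.prod_cons, List.foldl_cons, mul_assoc, cvb.2.2.2.1, ih]

theorem conv_zero' (cvb : S_CVB) (f : ℤ → ℚ) (q : ℤ) : conv f 0 q = 0 := by
  have h := cvb.1 f 0 0 q
  rw [add_zero] at h
  linarith

theorem conv_sub' (cvb : S_CVB) (f : ℤ → ℚ) (Y Y' : ℚ[X]) (q : ℤ) :
    conv f (Y - Y') q = conv f Y q - conv f Y' q := by
  have h : Y - Y' = Y + C (-1) * Y' := by
    rw [C_neg, C_1]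
    ring
  rw [h, cvb.1, cvb.2.1]
  ring

theorem conv_list (cvb : S_CVB) (f : ℤ → ℚ) (q : ℤ) (g : ℕ → ℚ[X]) : ∀ L : List ℕ,
    conv f (L.map g).sum q = (L.map fun a => conv f (g a) q).sum := by
  intro L
  induction L with
  | nil => simpa using conv_zero' cvb f q
  | cons a t ih => rw [List.map_cons, List.sum_cons, List.map_cons, List.sum_cons, cvb.1, ih]

/-- **Piece POS.** -/
theorem t_POS : S_SUE → S_SUB → S_PAIR → S_CVB → S_POS := by
  intro sue sub pair cvb cs R hcs hR hc hr q hq
  have hlen : 1 ≤ cs.length := by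
    rcases cs with _ | ⟨c, cs⟩
    · exact absurd rfl hcs
    · simp
  rw [conv_foldl cvb]
  have hU := SU_foldl sub cs hc _ _ (sue.2 cs.length hlen)
  set U := cs.foldl (fun g c => bk c g) (eul cs.length) with hUdef
  have hU' : SU (1 + cs.sum) U := by
    have e : (cs.length : ℤ) + 1 + cs.sum - cs.length = 1 + cs.sum := by ring
    rw [e] at hU
    exact hU
  have h1 := pair R hR hr (1 + cs.sum) U hU' q (by omega)
  unfold gR
  rw [conv_sub' cvb, conv_list cvb, cvb.2.2.2.2]
  have e : (R.map fun a => conv U (X ^ (R.sum - a) * qn a) q) =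
      R.map fun a => bk a U ((q : ℤ) - ((R.sum : ℤ) - a)) := by
    apply List.map_congr_left
    intro a ha
    have ha' : a ≤ R.sum := List.le_sum_of_mem ha
    rw [cvb.2.2.1, cvb.2.2.2.2]
    congr 1
    omega
  rw [e]
  linarith

end Pool.Agent.Run7.h913.TK
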